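import Pool.Agent.K6.H82.GU.GU15

set_option autoImplicit false

/-!
Gowers uniformity of the sets invariant under the Collatz map, and systems of linear forms in such sets.

Along every finite system of pairwise non-proportional linear forms the invariant sets (for example
merging classes) behave like independent random sets with the same densities: the indicator function
of an invariant set minus its density has small Gowers norms of every order, uniformly in the set.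
-/

namespace Pool.Agent.Results.MP_d02c56_nt.LinearSystems

open Filter Topology

/-- The Collatz map on the integers. -/
def C (x : ℤ) : ℤ := if x % 2 = 0 then x / 2 else 3 * x + 1

/-- The shortcut map. -/
def T (x : ℤ) : ℤ := if x % 2 = 0 then x / 2 else (3 * x + 1) / 2

/-- `S` is invariant under the Collatz map and its inverse. -/
def Invariant (S : Set ℤ) : Prop := ∀ x : ℤ, x ∈ S ↔ C x ∈ S

/-- Among the integers of sign `s` the set `S` has natural density `δ`. -/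
def HasDensity (s : ℤ) (S : Set ℤ) (δ : ℝ) : Prop :=
  Tendsto (fun N : ℕ => ({n : ℤ | 0 < s * n ∧ s * n ≤ N ∧ n ∈ S}.ncard : ℝ) / N) atTop (𝓝 δ)

/-- A bounded function on the integers that has the same value at any two integers whose
trajectories under the shortcut map are at some time at the same point. -/
def Synchronous (F : ℤ → ℝ) : Prop :=
  (∀ x, |F x| ≤ 1) ∧ ∀ (j : ℕ) (x y : ℤ), T^[j] x = T^[j] y → F x = F y

/-- The value at `z` of the `i`-th of the linear forms with the coefficients `c`. -/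
def form {k r : ℕ} (c : Fin k → Fin r → ℤ) (i : Fin k) (z : Fin r → ℤ) : ℤ := ∑ u, c i u * z u

/-- None of the forms is zero and no two of them are proportional. -/
def Independent {k r : ℕ} (c : Fin k → Fin r → ℤ) : Prop :=
  (∀ i, ∃ u, c i u ≠ 0) ∧ ∀ i j, i ≠ j → ∃ u v, c i u * c j v ≠ c i v * c j u

/-- The restriction of `F` to the integers `x` of sign `s` with `M < |x| ≤ N`. -/
noncomputable def window (s : ℤ) (M N : ℕ) (F : ℤ → ℝ) (x : ℤ) : ℝ :=
  if (M : ℤ) < s * x ∧ s * x ≤ N then F x else 0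

/-- The elements `x` of `S` of sign `s` with `M < |x| ≤ N`. -/
def Part (s : ℤ) (M N : ℕ) (S : Set ℤ) : Set ℤ := {x : ℤ | x ∈ S ∧ (M : ℤ) < s * x ∧ s * x ≤ N}

/-- The sum over all cubes `x + ∑ j ∈ ω, h j` (`ω ⊆ {1, …, d}`) with `|x|, |h 1|, …, |h d| ≤ N` of the
product of the values of `f` at the `2 ^ d` vertices. If `f` is supported on the integers `x` of one
sign with `|x| ≤ N`, this is the `2 ^ d`-th power of its Gowers norm of order `d`, not normalised. -/
noncomputable def Cubes (d N : ℕ) (f : ℤ → ℝ) : ℝ :=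
  ∑ z ∈ Fintype.piFinset (fun _ : Fin (d + 1) => Finset.Icc (-(N : ℤ)) N),
    ∏ ω : Finset (Fin d), f (z 0 + ∑ j ∈ ω, z j.succ)

/-- The number of the integer points `z` of the box `∏ [A u, B u]` such that the value of the `i`-th
form at `z` plus `m i` is in `X i` for all `i`. -/
noncomputable def Points {k r : ℕ} (c : Fin k → Fin r → ℤ) (m : Fin k → ℤ) (A B : Fin r → ℤ)
    (X : Fin k → Set ℤ) : ℕ :=
  {z : Fin r → ℤ | (∀ u, A u ≤ z u ∧ z u ≤ B u) ∧ ∀ i, form c i z + m i ∈ X i}.ncard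

/-- The number of the progressions `x, x + h, …, x + (k - 1) h` with `x` and `h` of sign `s`, all terms
at most `N` in absolute value and `x + j h ∈ S j` for all `j < k`. -/
noncomputable def Progressions (k : ℕ) (s : ℤ) (N : ℕ) (S : ℕ → Set ℤ) : ℕ :=
  {p : ℤ × ℤ | 0 < s * p.1 ∧ 0 < s * p.2 ∧ s * (p.1 + ((k : ℤ) - 1) * p.2) ≤ N ∧
    ∀ j : ℕ, j < k → p.1 + j * p.2 ∈ S j}.ncard

/-- The union of the five known cycles. -/
def Known : Finset ℤ := {1, 4, 2, -1, -2, -5, -14, -7, -20, -10, -17, -50, -25, -74, -37, -110,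
  -55, -164, -82, -41, -122, -61, -182, -91, -272, -136, -68, -34, 0}

/-- The trajectory of `x` reaches one of the five known cycles. -/
def Reaches (x : ℤ) : Prop := ∃ k : ℕ, C^[k] x ∈ Known

theorem known_closed : ∀ x ∈ Known, C x ∈ Known := by decide

theorem reaches_inv : Invariant {x | Reaches x} := by
  intro x
  constructor
  · rintro ⟨k, hk⟩
    cases k with
    | zero => exact ⟨0, known_closed x hk⟩
    | succ k => exact ⟨k, by rw [Function.iterate_succ_apply] at hk; exact hk⟩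
  · rintro ⟨k, hk⟩
    exact ⟨k + 1, by rw [Function.iterate_succ_apply]; exact hk⟩

open Pool.Agent.W41 Pool.Agent.H499R2.ND Pool.Agent.H499R2.CO Pool.Agent.W41.FU Pool.Agent.K6.H82.GU

theorem inv_of {S : Set ℤ} (hS : Invariant S) : Inv 1 S := by
  intro x
  have e : Td 1 x = C x ∨ Td 1 x = C (C x) := by
    unfold Td C
    by_cases h : x % 2 = 0
    · left; simp [h]
    · right
      have h2 : (3 * x + 1) % 2 = 0 := by omega
      simp [h, h2]
  rcases e with h | h
  · rw [h]; exact hS x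
  · rw [h]; exact (hS x).trans (hS (C x))

theorem HD_iff {s : ℤ} (hs : s = 1 ∨ s = -1) {S : Set ℤ} (hS : Invariant S) :
    ∃ δ : ℝ, HD s S δ ∧ HasDensity s S δ := by
  obtain ⟨δ, -, -, h⟩ := dens_side (d := 1) odd_one (by norm_num) hs (inv_of hS)
  exact ⟨δ, h, HD_ncard hs h⟩

theorem HD_of {s : ℤ} (hs : s = 1 ∨ s = -1) {S : Set ℤ} (hS : Invariant S) {δ : ℝ} (h : HasDensity s S δ) :
    HD s S δ := by
  obtain ⟨δ', h1, h2⟩ := HD_iff hs hS
  rw [tendsto_nhds_unique h h2]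
  exact h1

theorem T_sign {s : ℤ} (hs : s = 1 ∨ s = -1) (x : ℤ) : T (s * x) = s * Tz s x := by
  unfold T Tz
  rcases hs with rfl | rfl
  · simp only [one_mul]
  · have h1 : (-1 * x) % 2 = 0 ↔ x % 2 = 0 := by omega
    by_cases h : x % 2 = 0
    · rw [if_pos (h1.2 h), if_pos h]; omega
    · rw [if_neg (fun h2 => h (h1.1 h2)), if_neg h]; omega

theorem T_sign_iter {s : ℤ} (hs : s = 1 ∨ s = -1) (j : ℕ) : ∀ x : ℤ, T^[j] (s * x) = s * (Tz s)^[j] x := by
  induction j with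
  | zero => intro x; rfl
  | succ j ih =>
    intro x
    rw [Function.iterate_succ_apply, Function.iterate_succ_apply, T_sign hs, ih]

theorem synchronous_same {s : ℤ} (hs : s = 1 ∨ s = -1) {F : ℤ → ℝ} (hF : Synchronous F) :
    (fun x => F (s * x)) ∈ SameT s := by
  refine ⟨fun x => hF.1 _, fun j x y h => hF.2 j _ _ ?_⟩
  rw [T_sign_iter hs, T_sign_iter hs, h]

theorem dens_pos {s : ℤ} (hs : s = 1 ∨ s = -1) {S : Set ℤ} (hS : Invariant S) (hne : ∃ x ∈ S, 0 < s * x) :
    ∃ δ : ℝ, 0 < δ ∧ HasDensity s S δ := by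
  obtain ⟨δ, h1, h2⟩ := HD_iff hs hS
  obtain ⟨x, hx, hx0⟩ := hne
  exact ⟨δ, one_pos hs (inv_of hS) hx hx0 h1, h2⟩

theorem icc_ioc {ρ : Type} [Fintype ρ] [DecidableEq ρ] (A B : ρ → ℤ) :
    Fintype.piFinset (fun u => Finset.Icc (A u) (B u)) = Fintype.piFinset (fun u => Finset.Ioc (A u - 1) (B u)) := by
  ext z
  simp only [Fintype.mem_piFinset, Finset.mem_Icc, Finset.mem_Ioc]
  constructor
  · intro h u; have := h u; omega
  · intro h u; have := h u; omega

theorem window_res {s : ℤ} (hs : s = 1 ∨ s = -1) (M N : ℕ) (F : ℤ → ℝ) (x : ℤ) :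
    window s M N F x = res M N (fun n => F (s * n)) (s * x) := by
  unfold window res
  simp only [s_mul hs]

theorem ind_conv {k r : ℕ} {c : Fin k → Fin r → ℤ} (hc : Independent c) (i j : Fin k) (hij : i ≠ j) :
    ∃ u v, c i u * c j v - c i v * c j u ≠ 0 := by
  obtain ⟨u, v, h⟩ := hc.2 i j hij
  exact ⟨u, v, sub_ne_zero.2 h⟩

/-- the count as a sum -/
theorem points_eq {k r : ℕ} (c : Fin k → Fin r → ℤ) (m : Fin k → ℤ) (A B : Fin r → ℤ) (s : Fin k → ℤ)
    (hs : ∀ i, s i = 1 ∨ s i = -1) (M N : Fin k → ℕ) (S : Fin k → Set ℤ) :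
    (Points c m A B (fun i => Part (s i) (M i) (N i) (S i)) : ℝ)
      = IS c s m (fun u => A u - 1) B (fun i => res (M i) (N i) (ind (s i) (S i))) := by
  classical
  unfold IS
  rw [← icc_ioc]
  have e1 : ∀ z : Fin r → ℤ, ∏ i, res (M i) (N i) (ind (s i) (S i)) (s i * (lin c i z + m i))
      = if ∀ i ∈ Finset.univ, form c i z + m i ∈ Part (s i) (M i) (N i) (S i) then 1 else 0 := by
    intro z
    have e2 : ∀ i, res (M i) (N i) (ind (s i) (S i)) (s i * (lin c i z + m i))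
        = if form c i z + m i ∈ Part (s i) (M i) (N i) (S i) then 1 else 0 := by
      intro i
      have e3 : lin c i z = form c i z := rfl
      unfold res ind Part
      rw [s_mul (hs i), e3, Set.mem_ofPred_eq]
      by_cases h1 : (M i : ℤ) < s i * (form c i z + m i) ∧ s i * (form c i z + m i) ≤ N i
      · by_cases h2 : form c i z + m i ∈ S i
        · rw [if_pos h1, if_pos h2, if_pos ⟨h2, h1⟩]
        · rw [if_pos h1, if_neg h2, if_neg (fun h => h2 h.1)]
      · rw [if_neg h1, if_neg (fun h => h1 h.2)]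
    rw [Finset.prod_congr rfl (fun i _ => e2 i), Finset.prod_ite_zero]
    simp
  rw [Finset.sum_congr rfl (fun z _ => e1 z), ← Finset.sum_filter, Finset.sum_const, nsmul_eq_mul, mul_one]
  congr 1
  unfold Points
  rw [← Set.ncard_coe_finset]
  congr 1
  ext z
  simp only [Set.mem_ofPred_eq, Finset.coe_filter, Fintype.mem_piFinset, Finset.mem_Icc, Finset.mem_univ, forall_true_left]

theorem res_univ (M N : ℕ) (s : ℤ) : res M N (ind s Set.univ) = res M N (fun _ => 1) := by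
  ext x
  unfold res ind
  simp

/-- counting -/
theorem counting {k r : ℕ} (c : Fin k → Fin r → ℤ) (hc : Independent c) (s : Fin k → ℤ)
    (hs : ∀ i, s i = 1 ∨ s i = -1) {ε : ℝ} (hε : 0 < ε) :
    ∃ N₀ : ℕ, 1 ≤ N₀ ∧ ∀ S : Fin k → Set ℤ, (∀ i, Invariant (S i)) → ∀ δ : Fin k → ℝ,
      (∀ i, HasDensity (s i) (S i) (δ i)) → ∀ N : ℕ, N₀ ≤ N → ∀ A B : Fin r → ℤ,
      (∀ u, -(N : ℤ) ≤ A u) → (∀ u, B u ≤ N) → ∀ m : Fin k → ℤ, ∀ M N' : Fin k → ℕ,
      (∀ i, N' i ≤ N) →
      |(Points c m A B (fun i => Part (s i) (M i) (N' i) (S i)) : ℝ)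
        - (∏ i, δ i) * Points c m A B (fun i => Part (s i) (M i) (N' i) Set.univ)| ≤ ε * N ^ r := by
  obtain ⟨N0, hN0, h⟩ := count c hc.1 (ind_conv hc) s hs hε
  refine ⟨N0, hN0, ?_⟩
  intro S hS δ hδ N hN A B hA hB m M N' hN'
  by_cases hMN : ∀ i, M i ≤ N' i
  swap
  · push Not at hMN
    obtain ⟨i, hi⟩ := hMN
    have h0 : ∀ X : Fin k → Set ℤ, Points c m A B (fun i => Part (s i) (M i) (N' i) (X i)) = 0 := by
      intro X
      unfold Points
      have : {z : Fin r → ℤ | (∀ u, A u ≤ z u ∧ z u ≤ B u) ∧ ∀ i, form c i z + m i ∈ Part (s i) (M i) (N' i) (X i)} = ∅ := by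
        ext z
        simp only [Set.mem_ofPred_eq, Set.mem_empty_iff_false, iff_false]
        rintro ⟨-, h2⟩
        obtain ⟨-, h3, h4⟩ := h2 i
        omega
      rw [this, Set.ncard_empty]
    rw [h0 S, h0 (fun _ => Set.univ)]
    simp only [Nat.cast_zero, mul_zero, sub_zero, abs_zero]
    positivity
  have h1 := h S (fun i => inv_of (hS i)) δ (fun i => HD_of (hs i) (hS i) (hδ i)) N hN (fun u => A u - 1) B
    (fun u => by have := hA u; omega) (fun u => by have := hB u; omega) m M N' hMN hN'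
  rw [Fintype.card_fin] at h1
  rw [points_eq c m A B s hs M N' S, points_eq c m A B s hs M N' (fun _ => Set.univ)]
  simp only [res_univ]
  exact h1

/-- coordinates of sign `s` -/
theorem side_box {s : ℤ} (hs : s = 1 ∨ s = -1) (N : ℕ) (x : ℤ) :
    ((if s = 1 then (1 : ℤ) else -N) ≤ x ∧ x ≤ (if s = 1 then (N : ℤ) else -1)) ↔ (0 < s * x ∧ s * x ≤ N) := by
  rcases hs with rfl | rfl
  · simp only [if_true, one_mul]; omega
  · rw [if_neg (by norm_num), if_neg (by norm_num)]; omega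

theorem form_two {k : ℕ} (j : Fin k) (x h : ℤ) :
    form (fun (j : Fin k) => ![(1 : ℤ), (j : ℕ)]) j ![x, h] = x + (j : ℕ) * h := by
  unfold form
  simp [Fin.sum_univ_two]

theorem prog_eq {k : ℕ} (hk : 2 ≤ k) {s : ℤ} (hs : s = 1 ∨ s = -1) (N : ℕ) (S : ℕ → Set ℤ) :
    Progressions k s N S = Points (fun (j : Fin k) => ![(1 : ℤ), (j : ℕ)]) (fun _ => 0)
      (fun _ => if s = 1 then (1 : ℤ) else -N) (fun _ => if s = 1 then (N : ℤ) else -1)
      (fun j => Part s 0 N (S j)) := by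
  unfold Progressions Points
  have hset : {z : Fin 2 → ℤ | (∀ u, (if s = 1 then (1 : ℤ) else -N) ≤ z u ∧ z u ≤ (if s = 1 then (N : ℤ) else -1)) ∧
      ∀ i : Fin k, form (fun (j : Fin k) => ![(1 : ℤ), (j : ℕ)]) i z + 0 ∈ Part s 0 N (S i)}
      = (fun p : ℤ × ℤ => ![p.1, p.2]) '' {p : ℤ × ℤ | 0 < s * p.1 ∧ 0 < s * p.2 ∧
        s * (p.1 + ((k : ℤ) - 1) * p.2) ≤ N ∧ ∀ j : ℕ, j < k → p.1 + j * p.2 ∈ S j} := by
    ext z
    simp only [Set.mem_ofPred_eq, Set.mem_image, Prod.exists]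
    have hz : z = ![z 0, z 1] := by
      funext i; fin_cases i <;> rfl
    constructor
    · rintro ⟨h1, h2⟩
      refine ⟨z 0, z 1, ?_, hz.symm⟩
      have a0 := (side_box hs N (z 0)).1 (h1 0)
      have a1 := (side_box hs N (z 1)).1 (h1 1)
      have h3 : ∀ j : ℕ, j < k → z 0 + j * z 1 ∈ Part s 0 N (S j) := by
        intro j hj
        have h4 := h2 ⟨j, hj⟩
        rw [hz, form_two, add_zero] at h4
        exact h4
      refine ⟨a0.1, a1.1, ?_, fun j hj => (h3 j hj).1⟩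
      have h5 := (h3 (k - 1) (by omega)).2.2
      have h6 : ((k - 1 : ℕ) : ℤ) = (k : ℤ) - 1 := by omega
      rw [h6] at h5
      exact h5
    · rintro ⟨x, h, ⟨h1, h2, h3, h4⟩, rfl⟩
      have hk1 : (1 : ℤ) ≤ (k : ℤ) - 1 := by omega
      have e1 : s * (x + ((k : ℤ) - 1) * h) = s * x + ((k : ℤ) - 1) * (s * h) := by ring
      rw [e1] at h3
      have h5 : s * h ≤ ((k : ℤ) - 1) * (s * h) := by nlinarith
      refine ⟨?_, ?_⟩
      · intro u
        rw [side_box hs]
        fin_cases u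
        · exact ⟨h1, by
            have : s * x ≤ N := by linarith
            exact this⟩
        · exact ⟨h2, by
            have : s * h ≤ N := by linarith
            exact this⟩
      · intro i
        rw [form_two, add_zero]
        refine ⟨h4 i i.2, ?_, ?_⟩
        · have e2 : s * (x + (i : ℕ) * h) = s * x + (i : ℕ) * (s * h) := by ring
          rw [e2]
          have : (0 : ℤ) ≤ (i : ℕ) * (s * h) := by positivity
          push_cast
          linarith
        · have e2 : s * (x + (i : ℕ) * h) = s * x + (i : ℕ) * (s * h) := by ring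
          rw [e2]
          have h6 : ((i : ℕ) : ℤ) ≤ (k : ℤ) - 1 := by have := i.2; omega
          have h7 : ((i : ℕ) : ℤ) * (s * h) ≤ ((k : ℤ) - 1) * (s * h) := mul_le_mul_of_nonneg_right h6 h2.le
          linarith
  rw [hset, Set.ncard_image_of_injective]
  rintro ⟨x, h⟩ ⟨x', h'⟩ hh
  have h0 := congrFun hh 0
  have h1 := congrFun hh 1
  simp only [Matrix.cons_val_zero, Matrix.cons_val_one] at h0 h1
  rw [Prod.mk.injEq]
  exact ⟨h0, h1⟩

theorem prog_univ {k : ℕ} (hk : 2 ≤ k) {s : ℤ} (hs : s = 1 ∨ s = -1) (N : ℕ) :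
    Progressions k s N (fun _ => Set.univ) = ∑ h ∈ Finset.Icc 1 N, (N - (k - 1) * h) := by
  rw [← Pool.Agent.K6.H82.GU.ap_card (k - 1) N]
  unfold Progressions
  have hset : {p : ℤ × ℤ | 0 < s * p.1 ∧ 0 < s * p.2 ∧ s * (p.1 + ((k : ℤ) - 1) * p.2) ≤ N ∧
      ∀ j : ℕ, j < k → p.1 + j * p.2 ∈ (fun _ : ℕ => (Set.univ : Set ℤ)) j}
      = (fun p : ℕ × ℕ => ((s * (p.1 : ℤ), s * (p.2 : ℤ)) : ℤ × ℤ)) ''
        ((((Finset.Icc 1 N) ×ˢ (Finset.Icc 1 N)).filter (fun p : ℕ × ℕ => p.1 + (k - 1) * p.2 ≤ N) : Finset (ℕ × ℕ)) : Set (ℕ × ℕ)) := by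
    ext ⟨x, h⟩
    simp only [Set.mem_ofPred_eq, Set.mem_univ, implies_true, and_true, Set.mem_image, Finset.coe_filter,
      Finset.mem_product, Finset.mem_Icc, Prod.exists, Prod.mk.injEq]
    have hk1 : (1 : ℤ) ≤ (k : ℤ) - 1 := by omega
    constructor
    · rintro ⟨h1, h2, h3⟩
      have e1 : s * (x + ((k : ℤ) - 1) * h) = s * x + ((k : ℤ) - 1) * (s * h) := by ring
      rw [e1] at h3
      have h5 : s * h ≤ ((k : ℤ) - 1) * (s * h) := by nlinarith
      have c1 : (((s * x).toNat : ℕ) : ℤ) = s * x := Int.toNat_of_nonneg h1.le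
      have c2 : (((s * h).toNat : ℕ) : ℤ) = s * h := Int.toNat_of_nonneg h2.le
      refine ⟨(s * x).toNat, (s * h).toNat, ⟨⟨⟨by omega, by omega⟩, by omega, by omega⟩, ?_⟩, ?_, ?_⟩
      · have : (((s * x).toNat + (k - 1) * (s * h).toNat : ℕ) : ℤ) ≤ N := by
          push_cast
          rw [c1, c2]
          have h6 : ((k - 1 : ℕ) : ℤ) = (k : ℤ) - 1 := by omega
          rw [h6]
          exact h3
        exact_mod_cast this
      · rw [c1, s_mul hs]
      · rw [c2, s_mul hs]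
    · rintro ⟨a, b, ⟨⟨⟨h1, h2⟩, h3, h4⟩, h5⟩, rfl, rfl⟩
      rw [s_mul hs, s_mul hs]
      refine ⟨by omega, by omega, ?_⟩
      have e1 : s * (s * (a : ℤ) + ((k : ℤ) - 1) * (s * (b : ℤ))) = s * (s * ((a : ℤ) + ((k : ℤ) - 1) * b)) := by ring
      rw [e1, s_mul hs]
      have h6 : ((k - 1 : ℕ) : ℤ) = (k : ℤ) - 1 := by omega
      rw [← h6]
      exact_mod_cast h5
  rw [hset, Set.ncard_image_of_injective, Set.ncard_coe_finset]
  rintro ⟨x, h⟩ ⟨x', h'⟩ hh
  simp only [Prod.mk.injEq] at hh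
  have k1 := congrArg (fun x => s * x) hh.1
  have k2 := congrArg (fun x => s * x) hh.2
  simp only [s_mul hs] at k1 k2
  rw [Prod.mk.injEq]
  exact ⟨by exact_mod_cast k1, by exact_mod_cast k2⟩

theorem indep_ap (k : ℕ) : Independent (fun (j : Fin k) => ![(1 : ℤ), (j : ℕ)]) := by
  refine ⟨fun i => ⟨0, by simp⟩, fun i j hij => ⟨0, 1, ?_⟩⟩
  simp only [Matrix.cons_val_zero, Matrix.cons_val_one, one_mul, mul_one]
  intro h
  apply hij
  apply Fin.ext
  exact_mod_cast h.symm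

/-- progressions -/
theorem progressions {k : ℕ} (hk : 2 ≤ k) {s : ℤ} (hs : s = 1 ∨ s = -1) {ε : ℝ} (hε : 0 < ε) :
    ∃ N₀ : ℕ, ∀ S : ℕ → Set ℤ, (∀ j, Invariant (S j)) → ∀ δ : ℕ → ℝ, (∀ j, HasDensity s (S j) (δ j)) →
      ∀ N : ℕ, N₀ ≤ N → |(Progressions k s N S : ℝ)
        - (∏ j ∈ Finset.range k, δ j) * ((N : ℝ) ^ 2 / (2 * ((k : ℝ) - 1)))| ≤ ε * N ^ 2 := by
  obtain ⟨N0, hN0, h⟩ := counting (fun (j : Fin k) => ![(1 : ℤ), (j : ℕ)]) (indep_ap k) (fun _ => s) (fun _ => hs)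
    (show 0 < ε / 2 by positivity)
  obtain ⟨n1, hn1⟩ := exists_nat_ge (4 * (k : ℝ) / ε)
  refine ⟨N0 + n1 + 1, fun S hS δ hδ N hN => ?_⟩
  have h1 := h (fun j => S j) (fun j => hS j) (fun j => δ j) (fun j => hδ j) N (by omega)
    (fun _ => if s = 1 then (1 : ℤ) else -N) (fun _ => if s = 1 then (N : ℤ) else -1)
    (fun _ => by split_ifs <;> omega) (fun _ => by split_ifs <;> omega) (fun _ => 0) (fun _ => 0) (fun _ => N)
    (fun _ => le_rfl)
  rw [← prog_eq hk hs N S, ← prog_eq hk hs N (fun _ => Set.univ), prog_univ hk hs N,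
    ← Finset.prod_range (fun j => δ j)] at h1
  have h2 := ap_sum (k - 1) N (by omega)
  have hδ01 : ∀ j, 0 ≤ δ j ∧ δ j ≤ 1 := fun j => HD_mem hs (HD_of hs (hS j) (hδ j))
  have hP0 : 0 ≤ ∏ j ∈ Finset.range k, δ j := Finset.prod_nonneg fun j _ => (hδ01 j).1
  have hP1 : ∏ j ∈ Finset.range k, δ j ≤ 1 := Finset.prod_le_one (fun j _ => (hδ01 j).1) (fun j _ => (hδ01 j).2)
  have hk1 : ((k - 1 : ℕ) : ℝ) = (k : ℝ) - 1 := by rw [Nat.cast_sub (by omega)]; simp
  rw [hk1] at h2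
  have hNR : (1 : ℝ) ≤ N := by exact_mod_cast (by omega : 1 ≤ N)
  have hNk : 4 * (k : ℝ) ≤ ε * N := by
    have : (n1 : ℝ) ≤ N := by exact_mod_cast (by omega : n1 ≤ N)
    have h3 : 4 * (k : ℝ) / ε ≤ N := hn1.trans this
    rw [div_le_iff₀ hε] at h3
    linarith
  have hkR : (2 : ℝ) ≤ k := by exact_mod_cast hk
  set U : ℝ := ((∑ h ∈ Finset.Icc 1 N, (N - (k - 1) * h) : ℕ) : ℝ) with hU
  set P : ℝ := ∏ j ∈ Finset.range k, δ j with hP
  set W : ℝ := (N : ℝ) ^ 2 / (2 * ((k : ℝ) - 1)) with hW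
  have h4 : |P * U - P * W| ≤ ε / 2 * N ^ 2 := by
    rw [← mul_sub, abs_mul, abs_of_nonneg hP0]
    have h5 : P * |U - W| ≤ 1 * ((N : ℝ) + ((k : ℝ) - 1)) := mul_le_mul hP1 h2 (abs_nonneg _) zero_le_one
    have h6 : (N : ℝ) + ((k : ℝ) - 1) ≤ 2 * k * N := by nlinarith
    have h7 : 2 * k * (N : ℝ) ≤ ε / 2 * N ^ 2 := by nlinarith
    linarith
  have h5 := abs_sub_le (Progressions k s N S : ℝ) (P * U) (P * W)
  linarith


theorem indicator_ind (s : ℤ) (S : Set ℤ) (n : ℤ) : S.indicator (1 : ℤ → ℝ) (s * n) = ind s S n := by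
  classical
  unfold ind Set.indicator
  simp

/-- functions -/
theorem functions {k r : ℕ} (c : Fin k → Fin r → ℤ) (hc : Independent c) (s : Fin k → ℤ)
    (hs : ∀ i, s i = 1 ∨ s i = -1) {ε : ℝ} (hε : 0 < ε) :
    ∃ N₀ : ℕ, ∀ (i₀ : Fin k) (S : Set ℤ) (δ : ℝ) (F : Fin k → ℤ → ℝ), Invariant S →
      HasDensity (s i₀) S δ → (∀ i, i ≠ i₀ → Synchronous (F i)) → (∀ x, F i₀ x = S.indicator 1 x - δ) →
      ∀ N : ℕ, N₀ ≤ N → ∀ (A B : Fin r → ℤ), (∀ u, -(N : ℤ) ≤ A u) → (∀ u, B u ≤ N) →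
      ∀ (m : Fin k → ℤ) (M N' : Fin k → ℕ), (∀ i, N' i ≤ N) →
      |∑ z ∈ Fintype.piFinset (fun u => Finset.Icc (A u) (B u)),
        ∏ i, window (s i) (M i) (N' i) (F i) (form c i z + m i)| ≤ ε * N ^ r := by
  obtain ⟨N0, hN0, h⟩ := funcs c hc.1 (ind_conv hc) s hs hε
  refine ⟨N0, ?_⟩
  intro i₀ S δ F hS hδ hF hF0 N hN A B hA hB m M N' hN'
  by_cases hM : ∀ i, M i ≤ N' i
  · have hH := HD_of (hs i₀) hS hδ
    have h01 := HD_mem (hs i₀) hH
    have h1 := h i₀ S (inv_of hS) δ hH (fun i x => F i (s i * x)) (by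
        intro i
        by_cases hi : i = i₀
        · subst hi
          have h2 := bal_same (hs i) (inv_of hS) h01.1 h01.2
          have e : (fun x => F i (s i * x)) = bal (s i) S δ := by
            funext x
            rw [hF0, indicator_ind]
            rfl
          show (fun x => F i (s i * x)) ∈ SameT (s i)
          rw [e]
          exact h2
        · exact synchronous_same (hs i) (hF i hi)) (by
        funext x
        rw [hF0, indicator_ind]
        rfl) N hN (fun u => A u - 1) B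
      (fun u => by have := hA u; omega) (fun u => by have := hB u; omega) m M N' hM hN'
    rw [Fintype.card_fin] at h1
    have e : IS c s m (fun u => A u - 1) B (fun i => res (M i) (N' i) ((fun i x => F i (s i * x)) i))
        = ∑ z ∈ Fintype.piFinset (fun u => Finset.Icc (A u) (B u)),
          ∏ i, window (s i) (M i) (N' i) (F i) (form c i z + m i) := by
      unfold IS
      rw [← icc_ioc]
      apply Finset.sum_congr rfl
      intro z _
      apply Finset.prod_congr rfl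
      intro i _
      rw [window_res (hs i)]
      rfl
    rw [e] at h1
    exact h1
  · push Not at hM
    obtain ⟨i, hi⟩ := hM
    have : ∑ z ∈ Fintype.piFinset (fun u => Finset.Icc (A u) (B u)),
        ∏ i, window (s i) (M i) (N' i) (F i) (form c i z + m i) = 0 := by
      apply Finset.sum_eq_zero
      intro z _
      apply Finset.prod_eq_zero (Finset.mem_univ i)
      unfold window
      rw [if_neg]
      omega
    rw [this, abs_zero]
    positivity

/-- the forms of the cubes -/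
def cform (d : ℕ) (ω : Finset (Fin d)) : Fin (d + 1) → ℤ :=
  Fin.cons 1 (fun j => if j ∈ ω then 1 else 0)

theorem cform_lin (d : ℕ) (ω : Finset (Fin d)) (z : Fin (d + 1) → ℤ) :
    lin (cform d) ω z = z 0 + ∑ j ∈ ω, z j.succ := by
  unfold lin cform
  rw [Fin.sum_univ_succ]
  simp only [Fin.cons_zero, Fin.cons_succ, one_mul, ite_mul, zero_mul]
  rw [Finset.sum_ite_mem, Finset.univ_inter]

/-- Gowers norms -/
theorem gowers (d : ℕ) {s : ℤ} (hs : s = 1 ∨ s = -1) {ε : ℝ} (hε : 0 < ε) :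
    ∃ N₀ : ℕ, ∀ S : Set ℤ, Invariant S → ∀ δ : ℝ, HasDensity s S δ → ∀ N : ℕ, N₀ ≤ N →
      |Cubes d N (window s 0 N (fun x => S.indicator 1 x - δ))| ≤ ε * N ^ (d + 1) := by
  obtain ⟨N0, hN0, h⟩ := funcs (cform d) (fun ω => ⟨0, by unfold cform; simp⟩) (fun ω ω' hne => by
      have : ∃ j, ¬ (j ∈ ω ↔ j ∈ ω') := by
        by_contra hcon
        push Not at hcon
        exact hne (Finset.ext hcon)
      obtain ⟨j, hj⟩ := this
      refine ⟨0, j.succ, ?_⟩
      unfold cform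
      simp only [Fin.cons_zero, Fin.cons_succ, one_mul, mul_one]
      by_cases h1 : j ∈ ω
      · have h2 : j ∉ ω' := fun h2 => hj ⟨fun _ => h2, fun _ => h1⟩
        rw [if_pos h1, if_neg h2]; norm_num
      · have h2 : j ∈ ω' := by
          by_contra h2
          exact hj ⟨fun h => absurd h h1, fun h => absurd h h2⟩
        rw [if_neg h1, if_pos h2]; norm_num) (fun _ => s) (fun _ => hs) hε
  refine ⟨N0, ?_⟩
  intro S hS δ hδ N hN
  have hH := HD_of hs hS hδ
  have h01 := HD_mem hs hH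
  have h1 := h ∅ S (inv_of hS) δ hH (fun _ => bal s S δ) (fun _ => bal_same hs (inv_of hS) h01.1 h01.2) rfl N hN
    (fun _ => -(N : ℤ) - 1) (fun _ => N) (fun _ => by omega) (fun _ => by omega) (fun _ => 0) (fun _ => 0) (fun _ => N)
    (fun _ => Nat.zero_le _) (fun _ => le_rfl)
  rw [Fintype.card_fin] at h1
  have e1 : (fun n => S.indicator (1 : ℤ → ℝ) (s * n) - δ) = bal s S δ := by
    funext x
    rw [indicator_ind]
    rfl
  have e : IS (cform d) (fun _ => s) (fun _ => 0) (fun _ => -(N : ℤ) - 1) (fun _ => N)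
      (fun _ => res 0 N (bal s S δ)) = Cubes d N (window s 0 N (fun x => S.indicator 1 x - δ)) := by
    unfold IS Cubes
    rw [← icc_ioc]
    apply Finset.sum_congr rfl
    intro z _
    apply Finset.prod_congr rfl
    intro ω _
    rw [window_res hs, cform_lin, add_zero]
    beta_reduce
    rw [e1]
  rw [e] at h1
  exact h1

theorem form_abs {k r : ℕ} (c : Fin k → Fin r → ℤ) (i : Fin k) (y : Fin r → ℤ) {K : ℕ}
    (hy : ∀ u, (y u).natAbs ≤ K) : (form c i y).natAbs ≤ (∑ i, ∑ u, (c i u).natAbs) * K := by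
  have h1 : (form c i y).natAbs ≤ ∑ u, (c i u).natAbs * K := by
    unfold form
    refine (Int.natAbs_sum_le _ _).trans (Finset.sum_le_sum fun u _ => ?_)
    rw [Int.natAbs_mul]
    exact Nat.mul_le_mul_left _ (hy u)
  rw [← Finset.sum_mul] at h1
  refine h1.trans (Nat.mul_le_mul_right _ ?_)
  exact Finset.single_le_sum (f := fun i => ∑ u, (c i u).natAbs) (fun _ _ => Nat.zero_le _) (Finset.mem_univ i)

theorem points_finite {k r : ℕ} (c : Fin k → Fin r → ℤ) (m : Fin k → ℤ) (A B : Fin r → ℤ)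
    (X : Fin k → Set ℤ) :
    {z : Fin r → ℤ | (∀ u, A u ≤ z u ∧ z u ≤ B u) ∧ ∀ i, form c i z + m i ∈ X i}.Finite := by
  apply (Fintype.piFinset (fun u => Finset.Icc (A u) (B u))).finite_toSet.subset
  intro z hz
  rw [Finset.mem_coe, Fintype.mem_piFinset]
  intro u
  rw [Finset.mem_Icc]
  exact hz.1 u

/-- many solutions -/
theorem solutions {k r : ℕ} (c : Fin k → Fin r → ℤ) (hc : Independent c) (s : Fin k → ℤ)
    (hs : ∀ i, s i = 1 ∨ s i = -1) (hz : ∃ z : Fin r → ℤ, ∀ i, 0 < s i * form c i z)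
    {S : Fin k → Set ℤ} (hS : ∀ i, Invariant (S i)) (hne : ∀ i, ∃ x ∈ S i, 0 < s i * x) :
    ∃ η : ℝ, 0 < η ∧ ∀ m : Fin k → ℤ, ∃ N₀ : ℕ, ∀ N : ℕ, N₀ ≤ N →
      η * N ^ r ≤ Points c m (fun _ => -(N : ℤ)) (fun _ => N) (fun i => Part (s i) 0 N (S i)) := by
  obtain ⟨z0, hz0⟩ := hz
  set Q : ℕ := ∑ i, ∑ u, (c i u).natAbs with hQ
  set B0 : ℕ := ∑ u, (z0 u).natAbs with hB0
  set W : ℕ := (Q + 1) * ((Q + 1) * B0 + 1) + 1 with hW
  choose δ hδ0 hδ using fun i => dens_pos (hs i) (hS i) (hne i)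
  have hP : 0 < ∏ i, δ i := Finset.prod_pos fun i _ => hδ0 i
  have hWp : (0 : ℝ) < W := by rw [hW]; positivity
  obtain ⟨N0, hN0, h⟩ := counting c hc s hs (show 0 < (∏ i, δ i) / (2 * (W : ℝ) ^ r) by positivity)
  refine ⟨(∏ i, δ i) / (2 * (W : ℝ) ^ r), by positivity, fun m => ⟨N0 + W * ((∑ i, (m i).natAbs) + 1), ?_⟩⟩
  intro N hN
  set t : ℕ := N / W with ht
  have hW0 : 0 < W := by rw [hW]; omega
  have htN : W * t ≤ N := Nat.mul_div_le N W
  have hNt : N < W * (t + 1) := Nat.lt_mul_div_succ N hW0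
  have hmt : (∑ i, (m i).natAbs) + 1 ≤ t := by
    rw [ht, Nat.le_div_iff_mul_le hW0]
    rw [mul_comm]
    omega
  have hmi : ∀ i, (m i).natAbs < t := fun i => by
    have : (m i).natAbs ≤ ∑ i, (m i).natAbs :=
      Finset.single_le_sum (f := fun i => (m i).natAbs) (fun _ _ => Nat.zero_le _) (Finset.mem_univ i)
    omega
  have hbox : ∀ u, (z0 u).natAbs ≤ B0 := fun u =>
    Finset.single_le_sum (f := fun u => (z0 u).natAbs) (fun _ _ => Nat.zero_le _) (Finset.mem_univ u)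
  set q : ℕ := (Q + 1) * B0 + 1 with hq
  have hWt : W * t = (Q + 1) * (q * t) + t := by rw [hW]; ring
  have hWt2 : (Q + 1) * (q * t) = Q * (q * t) + q * t := by ring
  -- the points of the box
  have hz1 : ∀ z : Fin r → ℤ, (∀ u, ((Q + 1 : ℕ) : ℤ) * t * z0 u - t ≤ z u ∧ z u ≤ ((Q + 1 : ℕ) : ℤ) * t * z0 u + t) →
      ∀ u, (z u).natAbs ≤ q * t := by
    intro z hz u
    have h1 := hz u
    have h2 : (((Q + 1 : ℕ) : ℤ) * t * z0 u).natAbs ≤ (Q + 1) * t * B0 := by
      rw [Int.natAbs_mul, Int.natAbs_mul, Int.natAbs_natCast, Int.natAbs_natCast]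
      exact Nat.mul_le_mul_left _ (hbox u)
    have h3 : q * t = (Q + 1) * t * B0 + t := by rw [hq]; ring
    omega
  have hz2 : ∀ z : Fin r → ℤ, (∀ u, ((Q + 1 : ℕ) : ℤ) * t * z0 u - t ≤ z u ∧ z u ≤ ((Q + 1 : ℕ) : ℤ) * t * z0 u + t) →
      ∀ i, 0 < s i * (form c i z + m i) ∧ s i * (form c i z + m i) ≤ N := by
    intro z hz i
    have h1 := form_abs c i z (hz1 z hz)
    have h2 := form_abs c i (fun u => z u - ((Q + 1 : ℕ) : ℤ) * t * z0 u) (K := t) (fun u => by
      have := hz u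
      omega)
    rw [← hQ] at h1 h2
    have e1 : form c i z = ((Q + 1 : ℕ) : ℤ) * t * form c i z0 + form c i (fun u => z u - ((Q + 1 : ℕ) : ℤ) * t * z0 u) := by
      unfold form
      rw [Finset.mul_sum, ← Finset.sum_add_distrib]
      apply Finset.sum_congr rfl
      intro u _
      ring
    set y := form c i (fun u => z u - ((Q + 1 : ℕ) : ℤ) * t * z0 u) with hy
    have h3 := hz0 i
    have h4 := hmi i
    have h5 : (((Q + 1 : ℕ) : ℤ)) * t * 1 ≤ ((Q + 1 : ℕ) : ℤ) * t * (s i * form c i z0) :=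
      mul_le_mul_of_nonneg_left (by omega) (by positivity)
    have h6 : (((Q + 1 : ℕ) : ℤ)) * t * 1 = (Q * t : ℕ) + t := by push_cast; ring
    rw [h6] at h5
    have e2 : s i * (form c i z + m i) = ((Q + 1 : ℕ) : ℤ) * t * (s i * form c i z0) + s i * y + s i * m i := by
      rw [e1]; ring
    constructor
    · rw [e2]
      have h7 : (s i * y).natAbs = y.natAbs := s_natAbs (hs i) _
      have h8 : (s i * m i).natAbs = (m i).natAbs := s_natAbs (hs i) _
      omega
    · have h7 : (s i * (form c i z + m i)).natAbs = (form c i z + m i).natAbs := s_natAbs (hs i) _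
      omega
  set A : Fin r → ℤ := fun u => ((Q + 1 : ℕ) : ℤ) * t * z0 u - t with hA
  set B : Fin r → ℤ := fun u => ((Q + 1 : ℕ) : ℤ) * t * z0 u + t with hB
  have hAN : ∀ u, -(N : ℤ) ≤ A u := by
    intro u
    have h1 := hz1 A (fun u => ⟨le_rfl, by simp only [hA]; omega⟩) u
    omega
  have hBN : ∀ u, B u ≤ N := by
    intro u
    have h1 := hz1 B (fun u => ⟨by simp only [hB]; omega, le_rfl⟩) u
    omega
  have h1 := h S hS δ hδ N (by omega) A B hAN hBN m (fun _ => 0) (fun _ => N) (fun _ => le_rfl)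
  have h2 : Points c m A B (fun i => Part (s i) 0 N Set.univ) = (2 * t + 1) ^ r := by
    have e1 : {z : Fin r → ℤ | (∀ u, A u ≤ z u ∧ z u ≤ B u) ∧ ∀ i, form c i z + m i ∈ Part (s i) 0 N Set.univ}
        = (Fintype.piFinset (fun u => Finset.Icc (A u) (B u)) : Set (Fin r → ℤ)) := by
      ext z
      simp only [Set.mem_ofPred_eq, Finset.mem_coe, Fintype.mem_piFinset, Finset.mem_Icc]
      constructor
      · exact fun h => h.1
      · intro hz
        refine ⟨hz, fun i => ⟨Set.mem_univ _, ?_⟩⟩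
        have := hz2 z hz i
        exact ⟨by exact_mod_cast this.1, this.2⟩
    unfold Points
    rw [e1, Set.ncard_coe_finset, Fintype.card_piFinset]
    have e2 : ∀ u, (Finset.Icc (A u) (B u)).card = 2 * t + 1 := by
      intro u
      rw [Int.card_Icc]
      simp only [hA, hB]
      omega
    rw [Finset.prod_congr rfl (fun u _ => e2 u), Finset.prod_const, Finset.card_univ, Fintype.card_fin]
  have h3 : Points c m A B (fun i => Part (s i) 0 N (S i))
      ≤ Points c m (fun _ => -(N : ℤ)) (fun _ => N) (fun i => Part (s i) 0 N (S i)) := by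
    unfold Points
    apply Set.ncard_le_ncard _ (points_finite _ _ _ _ _)
    rintro z ⟨hz, hz'⟩
    exact ⟨fun u => ⟨(hAN u).trans (hz u).1, (hz u).2.trans (hBN u)⟩, hz'⟩
  have h4 : (N : ℝ) / W ≤ 2 * t + 1 := by
    rw [div_le_iff₀ hWp]
    have : (N : ℝ) ≤ W * (t + 1) := by exact_mod_cast hNt.le
    have h5 : (0 : ℝ) ≤ t := Nat.cast_nonneg _
    nlinarith
  have h5 : (N : ℝ) ^ r / (W : ℝ) ^ r ≤ (2 * t + 1) ^ r := by
    rw [← div_pow]
    exact pow_le_pow_left₀ (by positivity) h4 r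
  rw [h2] at h1
  push_cast at h1
  have h6 := (abs_le.1 h1).1
  have h7 : (∏ i, δ i) * ((N : ℝ) ^ r / (W : ℝ) ^ r) ≤ (∏ i, δ i) * (2 * t + 1) ^ r :=
    mul_le_mul_of_nonneg_left h5 hP.le
  have e3 : (∏ i, δ i) * ((N : ℝ) ^ r / (W : ℝ) ^ r) = 2 * ((∏ i, δ i) / (2 * (W : ℝ) ^ r) * N ^ r) := by
    have : (W : ℝ) ^ r ≠ 0 := by positivity
    field_simp
  have h8 : (Points c m A B (fun i => Part (s i) 0 N (S i)) : ℝ)
      ≤ Points c m (fun _ => -(N : ℤ)) (fun _ => N) (fun i => Part (s i) 0 N (S i)) := by exact_mod_cast h3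
  linarith

/-- the known cycles -/
theorem known_cycles {k r : ℕ} (c : Fin k → Fin r → ℤ) (hc : Independent c) {s : ℤ} (hs : s = 1 ∨ s = -1)
    (hz : ∃ z : Fin r → ℤ, ∀ i, 0 < s * form c i z) (m : Fin k → ℤ) (ψ : ℕ → ℝ) (hψ : Tendsto ψ atTop (𝓝 0))
    (h : ∃ᶠ N : ℕ in atTop, (Points c m (fun _ => -(N : ℤ)) (fun _ => N)
      (fun _ => Part s 0 N {x | ¬ Reaches x}) : ℝ) ≤ ψ N * N ^ r) : ∀ x : ℤ, 0 < s * x → Reaches x := by
  intro x hx
  by_contra hcon
  have hinv : Invariant {x | ¬ Reaches x} := fun x => not_congr (reaches_inv x)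
  obtain ⟨η, hη, h1⟩ := solutions c hc (fun _ => s) (fun _ => hs) hz (S := fun _ => {x | ¬ Reaches x})
    (fun _ => hinv) (fun _ => ⟨x, hcon, hx⟩)
  obtain ⟨N0, h2⟩ := h1 m
  have h3 := hψ.eventually (gt_mem_nhds hη)
  obtain ⟨N, hN1, hN2, hN3⟩ := (h.and_eventually (h3.and (eventually_ge_atTop (N0 + 1)))).exists
  have h4 := h2 N (by omega)
  have h5 : (0 : ℝ) < (N : ℝ) ^ r := by
    have : (0 : ℝ) < N := by exact_mod_cast (by omega : 0 < N)
    positivity
  nlinarith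

/-- MP_d02c56_nt, partial answer: the sets invariant under the Collatz map are Gowers uniform of every
order, and along every finite system of pairwise non-proportional linear forms they behave like
independent random sets with the same densities.
(1) The indicator function of an invariant set minus its density, on the integers `x` of sign `s` with
`|x| ≤ N`, has a Gowers norm of order `d` that tends to zero, uniformly in the set.
(2) The mean of a product of synchronous functions along the system is small, uniformly, if one of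
the functions is the indicator function of an invariant set minus its density; the others are
arbitrary.
(3) The number of the points at which the forms take values in given parts of invariant sets is the
product of the densities times the number without the condition of being in the sets, up to a small
error.
(4) The progressions with `k` terms in invariant sets.
(5) Each such system, if it takes values of the right signs at all, takes values in given invariant
sets at a positive proportion of the points of the cube `[-N, N]^r`.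
(6) If, for one such system and infinitely many `N`, at most `ψ N * N ^ r` points of the cube, `ψ N → 0`,
give only integers of sign `s` that do not reach the known cycles, then all integers of sign `s` do. -/
theorem result :
    (∀ (d : ℕ) (s : ℤ), s = 1 ∨ s = -1 → ∀ ε : ℝ, 0 < ε → ∃ N₀ : ℕ, ∀ S : Set ℤ, Invariant S →
      ∃ δ : ℝ, HasDensity s S δ ∧ ∀ N : ℕ, N₀ ≤ N →
        |Cubes d N (window s 0 N (fun x => S.indicator 1 x - δ))| ≤ ε * N ^ (d + 1)) ∧
    (∀ (k r : ℕ) (c : Fin k → Fin r → ℤ), Independent c → ∀ s : Fin k → ℤ, (∀ i, s i = 1 ∨ s i = -1) →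
      ∀ ε : ℝ, 0 < ε → ∃ N₀ : ℕ, ∀ (i₀ : Fin k) (S : Set ℤ) (δ : ℝ) (F : Fin k → ℤ → ℝ), Invariant S →
      HasDensity (s i₀) S δ → (∀ i, i ≠ i₀ → Synchronous (F i)) → (∀ x, F i₀ x = S.indicator 1 x - δ) →
      ∀ N : ℕ, N₀ ≤ N → ∀ A B : Fin r → ℤ, (∀ u, -(N : ℤ) ≤ A u) → (∀ u, B u ≤ N) →
      ∀ (m : Fin k → ℤ) (M N' : Fin k → ℕ), (∀ i, N' i ≤ N) →
      |∑ z ∈ Fintype.piFinset (fun u => Finset.Icc (A u) (B u)),
        ∏ i, window (s i) (M i) (N' i) (F i) (form c i z + m i)| ≤ ε * N ^ r) ∧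
    (∀ (k r : ℕ) (c : Fin k → Fin r → ℤ), Independent c → ∀ s : Fin k → ℤ, (∀ i, s i = 1 ∨ s i = -1) →
      ∀ ε : ℝ, 0 < ε → ∃ N₀ : ℕ, ∀ S : Fin k → Set ℤ, (∀ i, Invariant (S i)) → ∃ δ : Fin k → ℝ,
      (∀ i, HasDensity (s i) (S i) (δ i)) ∧ ∀ N : ℕ, N₀ ≤ N → ∀ A B : Fin r → ℤ,
      (∀ u, -(N : ℤ) ≤ A u) → (∀ u, B u ≤ N) → ∀ (m : Fin k → ℤ) (M N' : Fin k → ℕ), (∀ i, N' i ≤ N) →
      |(Points c m A B (fun i => Part (s i) (M i) (N' i) (S i)) : ℝ)
        - (∏ i, δ i) * Points c m A B (fun i => Part (s i) (M i) (N' i) Set.univ)| ≤ ε * N ^ r) ∧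
    (∀ k : ℕ, 2 ≤ k → ∀ s : ℤ, s = 1 ∨ s = -1 → ∀ ε : ℝ, 0 < ε → ∃ N₀ : ℕ, ∀ S : ℕ → Set ℤ,
      (∀ j, Invariant (S j)) → ∃ δ : ℕ → ℝ, (∀ j, HasDensity s (S j) (δ j)) ∧ ∀ N : ℕ, N₀ ≤ N →
      |(Progressions k s N S : ℝ) - (∏ j ∈ Finset.range k, δ j) * ((N : ℝ) ^ 2 / (2 * ((k : ℝ) - 1)))|
        ≤ ε * N ^ 2) ∧
    (∀ (k r : ℕ) (c : Fin k → Fin r → ℤ), Independent c → ∀ s : Fin k → ℤ, (∀ i, s i = 1 ∨ s i = -1) →
      (∃ z : Fin r → ℤ, ∀ i, 0 < s i * form c i z) → ∀ S : Fin k → Set ℤ, (∀ i, Invariant (S i)) →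
      (∀ i, ∃ x ∈ S i, 0 < s i * x) → ∃ η : ℝ, 0 < η ∧ ∀ m : Fin k → ℤ, ∃ N₀ : ℕ, ∀ N : ℕ, N₀ ≤ N →
      η * N ^ r ≤ Points c m (fun _ => -(N : ℤ)) (fun _ => N) (fun i => Part (s i) 0 N (S i))) ∧
    (∀ (k r : ℕ) (c : Fin k → Fin r → ℤ), Independent c → ∀ s : ℤ, s = 1 ∨ s = -1 →
      (∃ z : Fin r → ℤ, ∀ i, 0 < s * form c i z) → ∀ (m : Fin k → ℤ) (ψ : ℕ → ℝ), Tendsto ψ atTop (𝓝 0) →
      (∃ᶠ N : ℕ in atTop, (Points c m (fun _ => -(N : ℤ)) (fun _ => N)
        (fun _ => Part s 0 N {x | ¬ Reaches x}) : ℝ) ≤ ψ N * N ^ r) → ∀ x : ℤ, 0 < s * x → Reaches x) := by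
  refine ⟨?_, ?_, ?_, ?_, ?_, ?_⟩
  · intro d s hs ε hε
    obtain ⟨N₀, h⟩ := gowers d hs hε
    refine ⟨N₀, fun S hS => ?_⟩
    obtain ⟨δ, -, hδ⟩ := HD_iff hs hS
    exact ⟨δ, hδ, h S hS δ hδ⟩
  · intro k r c hc s hs ε hε
    exact functions c hc s hs hε
  · intro k r c hc s hs ε hε
    obtain ⟨N₀, -, h⟩ := counting c hc s hs hε
    refine ⟨N₀, fun S hS => ?_⟩
    choose δ hH hδ using fun i => HD_iff (hs i) (hS i)
    exact ⟨δ, hδ, h S hS δ hδ⟩
  · intro k hk s hs ε hε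
    obtain ⟨N₀, h⟩ := progressions hk hs hε
    refine ⟨N₀, fun S hS => ?_⟩
    choose δ hH hδ using fun j => HD_iff hs (hS j)
    exact ⟨δ, hδ, h S hS δ hδ⟩
  · intro k r c hc s hs hz S hS hne
    exact solutions c hc s hs hz hS hne
  · intro k r c hc s hs hz m ψ hψ h
    exact known_cycles c hc hs hz m ψ hψ h

end Pool.Agent.Results.MP_d02c56_nt.LinearSystems
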